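import Pool.Agent.helper7.DF.Spec

set_option autoImplicit false

namespace Pool.Agent.DFO

theorem SUP (hSML : SML_stmt) (hMAI : MAI_stmt) : SUP_stmt := by
  intro A
  obtain ⟨C₀, k₁, h1⟩ := hMAI A
  obtain ⟨k₂, h2⟩ := hSML C₀
  refine ⟨max k₁ k₂, ?_⟩
  intro k hk n hkn hnA
  have hk1 : k₁ ≤ k := le_trans (le_max_left _ _) hk
  have hk2 : k₂ ≤ k := le_trans (le_max_right _ _) hk
  rcases le_total ((n : ℝ)) ((k : ℝ) * Real.log k ^ C₀) with h | h
  · exact h2 k hk2 n hkn h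
  · exact h1 k hk1 n h hnA

end Pool.Agent.DFO
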